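import Mathlib

set_option autoImplicit false

/-!
Bucic's question on monochromatic packings has a negative answer.

Let `A` carry a `p`-regular graph without 4-cycles (points and lines of an affine plane), let `B` be
a set of `|A| - p` further vertices and join `A` completely to `B`.  The resulting graph is regular
of degree `|A|`, more than half of its order.  Colour the edges inside `A` blue and the others red.
If `H` is connected, bipartite with classes of equal size and contains a 4-cycle, there is no blue
copy of `H`, and every red copy uses equally many vertices of `A` and of `B`.  So at least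
`|A| - |B| = p` vertices are left uncovered by every monochromatic `H`-packing.
-/

namespace Pool.Agent.Results.MP_b9e70b_co.ColouredPackingFails

open Finset

/-- `f` is a monochromatic copy of `H` in `G` under the edge colouring `χ`: an injective map of the
vertices of `H` which sends edges of `H` to edges of `G`, all of one colour. -/
def IsMonoCopy {W V : Type} {r : ℕ} (H : SimpleGraph W) (G : SimpleGraph V)
    (χ : Sym2 V → Fin r) (f : W ↪ V) : Prop :=
  (∀ a b, H.Adj a b → G.Adj (f a) (f b)) ∧
    ∃ i : Fin r, ∀ a b, H.Adj a b → χ s(f a, f b) = i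

/-- `P` is a monochromatic `H`-packing: a family of pairwise vertex-disjoint monochromatic copies
of `H` (different copies may have different colours). -/
def IsMonoPacking {W V : Type} {r : ℕ} (H : SimpleGraph W) (G : SimpleGraph V)
    (χ : Sym2 V → Fin r) (P : Set (W ↪ V)) : Prop :=
  (∀ f ∈ P, IsMonoCopy H G χ f) ∧
    ∀ f ∈ P, ∀ g ∈ P, f ≠ g → Disjoint (Set.range f) (Set.range g)

/-- The vertices left uncovered by `P`. -/
def uncovered {W V : Type} (P : Set (W ↪ V)) : Set V := {v | ∀ f ∈ P, v ∉ Set.range f}

/-- The statement of Q1: for all finite bipartite `H`, all `r ≥ 2` and `0 < c < 1` there is a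
constant `C > 0` such that every edge colouring with `r` colours of every finite `d`-regular graph
`G` with `d ≥ c |V(G)|` has a monochromatic `H`-packing leaving at most `C` vertices uncovered. -/
def Question : Prop :=
  ∀ (W : Type) (_ : Finite W) (H : SimpleGraph W), H.IsBipartite → ∀ r : ℕ, 2 ≤ r →
    ∀ c : ℝ, 0 < c → c < 1 → ∃ C : ℝ, 0 < C ∧
      ∀ (V : Type) (_ : Finite V) (G : SimpleGraph V) (d : ℕ),
        (∀ v, (G.neighborSet v).ncard = d) → c * (Nat.card V : ℝ) ≤ (d : ℝ) →
          ∀ χ : Sym2 V → Fin r, ∃ P : Set (W ↪ V), IsMonoPacking H G χ P ∧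
            ((uncovered P).ncard : ℝ) ≤ C

/-- The `p`-regular bipartite incidence graph of points and non-vertical lines over `ZMod p`. -/
def inc (p : ℕ) : SimpleGraph ((ZMod p × ZMod p) ⊕ (ZMod p × ZMod p)) where
  Adj u v := match u, v with
    | Sum.inl q, Sum.inr l => q.2 = l.1 * q.1 + l.2
    | Sum.inr l, Sum.inl q => q.2 = l.1 * q.1 + l.2
    | _, _ => False
  symm := ⟨by
    rintro (q | l) (q' | l') h
    · exact h.elim
    · exact h
    · exact h
    · exact h.elim⟩
  loopless := ⟨by
    rintro (q | l) h
    · exact h.elim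
    · exact h.elim⟩

/-- `inc p` on the left part, everything on the left joined to everything on the right. -/
def host (p : ℕ) (B : Type) :
    SimpleGraph (((ZMod p × ZMod p) ⊕ (ZMod p × ZMod p)) ⊕ B) where
  Adj u v := match u, v with
    | Sum.inl a, Sum.inl a' => (inc p).Adj a a'
    | Sum.inl _, Sum.inr _ => True
    | Sum.inr _, Sum.inl _ => True
    | Sum.inr _, Sum.inr _ => False
  symm := ⟨by
    rintro (q | l) (q' | l') h
    · exact (inc p).adj_symm h
    · trivial
    · trivial
    · exact h⟩
  loopless := ⟨by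
    rintro (q | l) h
    · exact (inc p).loopless.irrefl _ h
    · exact h⟩

theorem inc_ncard (p : ℕ) [NeZero p] (u : (ZMod p × ZMod p) ⊕ (ZMod p × ZMod p)) :
    ((inc p).neighborSet u).ncard = p := by
  have key : ∀ (g : ZMod p → (ZMod p × ZMod p) ⊕ (ZMod p × ZMod p)), Function.Injective g →
      (inc p).neighborSet u = Set.range g → ((inc p).neighborSet u).ncard = p := by
    intro g hg h
    rw [h, ← Set.image_univ, Set.ncard_image_of_injective _ hg, Set.ncard_univ, Nat.card_zmod]
  rcases u with q | l
  · refine key (fun a => Sum.inr (a, q.2 - a * q.1)) ?_ ?_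
    · intro a b h
      simpa using congrArg (fun z => (Sum.elim id id z).1) h
    · ext v
      rcases v with q' | l'
      · simp [SimpleGraph.mem_neighborSet, inc]
      · simp only [SimpleGraph.mem_neighborSet, inc, Set.mem_range, Sum.inr.injEq]
        constructor
        · intro h
          exact ⟨l'.1, by ext <;> simp [h]⟩
        · rintro ⟨a, rfl⟩
          simp
  · refine key (fun a => Sum.inl (a, l.1 * a + l.2)) ?_ ?_
    · intro a b h
      simpa using congrArg (fun z => (Sum.elim id id z).1) h
    · ext v
      rcases v with q' | l'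
      · simp only [SimpleGraph.mem_neighborSet, inc, Set.mem_range, Sum.inl.injEq]
        constructor
        · intro h
          exact ⟨q'.1, by ext <;> simp [h]⟩
        · rintro ⟨a, rfl⟩
          simp
      · simp [SimpleGraph.mem_neighborSet, inc]

theorem inc_C4 (p : ℕ) [Fact p.Prime] (a b c d : (ZMod p × ZMod p) ⊕ (ZMod p × ZMod p))
    (hac : a ≠ c) (hbd : b ≠ d) (h1 : (inc p).Adj a b) (h2 : (inc p).Adj b c)
    (h3 : (inc p).Adj c d) (h4 : (inc p).Adj d a) : False := by
  have key : ∀ q q' l l' : ZMod p × ZMod p, q ≠ q' → l ≠ l' → q.2 = l.1 * q.1 + l.2 →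
      q'.2 = l.1 * q'.1 + l.2 → q.2 = l'.1 * q.1 + l'.2 → q'.2 = l'.1 * q'.1 + l'.2 → False := by
    intro q q' l l' hq hl e1 e2 e3 e4
    have e : (l.1 - l'.1) * (q.1 - q'.1) = 0 := by linear_combination e2 - e1 + e3 - e4
    rcases mul_eq_zero.1 e with e | e
    · have e5 : l.1 = l'.1 := sub_eq_zero.1 e
      apply hl
      refine Prod.ext e5 ?_
      rw [e5] at e1
      linear_combination e3 - e1
    · have e5 : q.1 = q'.1 := sub_eq_zero.1 e
      apply hq
      refine Prod.ext e5 ?_
      rw [e1, e2, e5]
  rcases a with a | a <;> rcases b with b | b <;> rcases c with c | c <;> rcases d with d | d <;>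
    simp only [inc] at h1 h2 h3 h4
  · exact key a c b d (by simpa using hac) (by simpa using hbd) h1 h2 h4 h3
  · exact key b d a c (by simpa using hbd) (by simpa using hac) h1 h4 h2 h3

theorem host_ncard (p : ℕ) [NeZero p] (B : Type) [Finite B] (hB : Nat.card B + p = 2 * (p * p))
    (v : ((ZMod p × ZMod p) ⊕ (ZMod p × ZMod p)) ⊕ B) :
    ((host p B).neighborSet v).ncard = 2 * (p * p) := by
  rcases v with a | b
  · have : (host p B).neighborSet (Sum.inl a) =
        Sum.inl '' ((inc p).neighborSet a) ∪ Sum.inr '' Set.univ := by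
      ext v
      rcases v with v | v <;> simp [SimpleGraph.mem_neighborSet, host]
    rw [this, Set.ncard_union_eq, Set.ncard_image_of_injective _ Sum.inl_injective,
      Set.ncard_image_of_injective _ Sum.inr_injective, inc_ncard, Set.ncard_univ]
    · omega
    · rw [Set.disjoint_left]
      rintro _ ⟨x, -, rfl⟩ ⟨y, -, h⟩
      cases h
  · have : (host p B).neighborSet (Sum.inr b) = Sum.inl '' Set.univ := by
      ext v
      rcases v with v | v <;> simp [SimpleGraph.mem_neighborSet, host]
    rw [this, Set.ncard_image_of_injective _ Sum.inl_injective, Set.ncard_univ]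
    simp
    ring

/-- Blue inside `A`, red otherwise. -/
def colour (X B : Type) (r : ℕ) (hr : 2 ≤ r) : Sym2 (X ⊕ B) → Fin r :=
  Sym2.lift ⟨fun u v => if u.isLeft = true ∧ v.isLeft = true then ⟨1, by omega⟩ else ⟨0, by omega⟩,
    by intro u v; simp only [and_comm]⟩

/-- A copy of `H` in the host: it is blue and inside `A`, or its edges go between `A` and `B`. -/
theorem copy_cases {W B : Type} (p r : ℕ) (hr : 2 ≤ r) (H : SimpleGraph W)
    (f : W ↪ ((ZMod p × ZMod p) ⊕ (ZMod p × ZMod p)) ⊕ B)
    (h : IsMonoCopy H (host p B) (colour _ B r hr) f) :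
    (∀ a b, H.Adj a b → ∃ x y, f a = Sum.inl x ∧ f b = Sum.inl y ∧ (inc p).Adj x y) ∨
      (∀ a b, H.Adj a b → (f a).isLeft ≠ (f b).isLeft) := by
  obtain ⟨h1, i, h2⟩ := h
  by_cases hi : i = ⟨1, by omega⟩
  · left
    intro a b hab
    have e1 := h1 a b hab
    have e2 := h2 a b hab
    rcases hx : f a with x | x <;> rcases hy : f b with y | y <;>
      simp only [hx, hy, colour, Sym2.lift_mk, host, hi] at e1 e2
    · exact ⟨x, y, rfl, rfl, e1⟩
    · simp at e2
    · simp at e2
  · right
    intro a b hab
    have e1 := h1 a b hab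
    have e2 := h2 a b hab
    rcases hx : f a with x | x <;> rcases hy : f b with y | y <;>
      simp only [hx, hy, colour, Sym2.lift_mk, host] at e1 e2
    · simp only [Sum.isLeft_inl, and_self, if_true] at e2
      exact absurd e2.symm hi
    · simp
    · simp

theorem red_balanced {W B : Type} [Fintype W] {X : Type} (H : SimpleGraph W) (s : W → Bool)
    (hH : H.Connected) (hs : ∀ a b, H.Adj a b → s a ≠ s b)
    (hbal : (univ.filter (fun a => s a = true)).card = (univ.filter (fun a => s a = false)).card)
    (f : W ↪ X ⊕ B) (h : ∀ a b, H.Adj a b → (f a).isLeft ≠ (f b).isLeft) :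
    (univ.filter (fun a => (f a).isLeft = true)).card =
      (univ.filter (fun a => (f a).isLeft = false)).card := by
  obtain ⟨a0⟩ := hH.nonempty
  have key : ∀ a, (s a = (f a).isLeft) ↔ (s a0 = (f a0).isLeft) := by
    intro a
    obtain ⟨w⟩ := hH.preconnected a a0
    induction w with
    | nil => exact Iff.rfl
    | cons hadj _ ih =>
      rw [← ih]
      have e1 := hs _ _ hadj
      have e2 := h _ _ hadj
      revert e1 e2
      generalize s _ = x1
      generalize s _ = x2
      generalize (f _).isLeft = x3
      generalize (f _).isLeft = x4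
      revert x1 x2 x3 x4
      decide
  by_cases h0 : s a0 = (f a0).isLeft
  · have e : ∀ a, s a = (f a).isLeft := fun a => (key a).2 h0
    simpa only [← e] using hbal
  · have e : ∀ a, s a = !(f a).isLeft := by
      intro a
      have := (not_congr (key a)).2 h0
      revert this
      generalize s a = x1
      generalize (f a).isLeft = x2
      revert x1 x2
      decide
    simp only [e, Bool.not_eq_true', Bool.not_eq_false'] at hbal
    exact hbal.symm

theorem count {W X B : Type} [Finite W] [Finite X] [Finite B] (P : Set (W ↪ X ⊕ B))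
    (hd : ∀ f ∈ P, ∀ g ∈ P, f ≠ g → Disjoint (Set.range f) (Set.range g))
    (hb : ∀ f ∈ P, {a | (f a).isLeft = true}.ncard = {a | (f a).isLeft = false}.ncard) :
    Nat.card X ≤ Nat.card B + (uncovered P).ncard := by
  classical
  have := Fintype.ofFinite W
  have := Fintype.ofFinite X
  have := Fintype.ofFinite B
  set Q : Finset (W ↪ X ⊕ B) := P.toFinite.toFinset with hQ
  have hmem : ∀ f, f ∈ Q ↔ f ∈ P := fun f => Set.Finite.mem_toFinset _
  set L : (W ↪ X ⊕ B) → Finset (X ⊕ B) := fun f => (univ.filter (fun a => (f a).isLeft = true)).map f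
  set R : (W ↪ X ⊕ B) → Finset (X ⊕ B) := fun f => (univ.filter (fun a => (f a).isLeft = false)).map f
  have hLR : ∀ f ∈ Q, (L f).card = (R f).card := by
    intro f hf
    have := hb f ((hmem f).1 hf)
    simpa [L, R, Set.ncard_eq_toFinset_card'] using this
  have h1 : (univ.filter (fun v : X ⊕ B => v.isLeft = true)) ⊆
      (uncovered P).toFinset ∪ Q.biUnion L := by
    intro v hv
    rw [mem_union]
    by_cases hu : v ∈ uncovered P
    · left; simpa using hu
    · right
      simp only [uncovered, Set.mem_ofPred_eq, not_forall, not_not] at hu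
      obtain ⟨f, hf, a, rfl⟩ := hu
      rw [mem_biUnion]
      refine ⟨f, (hmem f).2 hf, ?_⟩
      simp only [L, mem_map, mem_filter, mem_univ, true_and]
      exact ⟨a, by simpa using hv, rfl⟩
  have h2 : Q.biUnion R ⊆ univ.filter (fun v : X ⊕ B => v.isLeft = false) := by
    intro v hv
    rw [mem_biUnion] at hv
    obtain ⟨f, -, hv⟩ := hv
    simp only [R, mem_map, mem_filter, mem_univ, true_and] at hv
    obtain ⟨a, ha, rfl⟩ := hv
    simpa using ha
  have h3 : (Q.biUnion R).card = ∑ f ∈ Q, (R f).card := by
    apply card_biUnion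
    intro f hf g hg hfg
    change Disjoint (R f) (R g)
    rw [Finset.disjoint_left]
    intro v hv hv'
    simp only [R, mem_map, mem_filter, mem_univ, true_and] at hv hv'
    obtain ⟨a, -, ha⟩ := hv
    obtain ⟨b, -, hb'⟩ := hv'
    exact Set.disjoint_left.1 (hd f ((hmem f).1 hf) g ((hmem g).1 hg) hfg) ⟨a, ha⟩ ⟨b, hb'⟩
  have c1 : (univ.filter (fun v : X ⊕ B => v.isLeft = true)).card = Nat.card X := by
    have : (univ.filter (fun v : X ⊕ B => v.isLeft = true)) =
        (univ : Finset X).map ⟨Sum.inl, Sum.inl_injective⟩ := by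
      ext v
      rcases v with v | v <;> simp
    rw [this, card_map, card_univ, Nat.card_eq_fintype_card]
  have c2 : (univ.filter (fun v : X ⊕ B => v.isLeft = false)).card = Nat.card B := by
    have : (univ.filter (fun v : X ⊕ B => v.isLeft = false)) =
        (univ : Finset B).map ⟨Sum.inr, Sum.inr_injective⟩ := by
      ext v
      rcases v with v | v <;> simp
    rw [this, card_map, card_univ, Nat.card_eq_fintype_card]
  have e1 := card_le_card h1
  have e2 := card_le_card h2
  have e3 := card_union_le (uncovered P).toFinset (Q.biUnion L)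
  have e4 : (Q.biUnion L).card ≤ ∑ f ∈ Q, (L f).card := card_biUnion_le
  rw [sum_congr rfl hLR] at e4
  rw [Set.ncard_eq_toFinset_card']
  omega

theorem main (W : Type) [Finite W] (H : SimpleGraph W) (s : W → Bool) (hH : H.Connected)
    (hs : ∀ a b, H.Adj a b → s a ≠ s b)
    (hbal : {a | s a = true}.ncard = {a | s a = false}.ncard)
    (hC4 : ∃ a b c d, a ≠ c ∧ b ≠ d ∧ H.Adj a b ∧ H.Adj b c ∧ H.Adj c d ∧ H.Adj d a)
    (r : ℕ) (hr : 2 ≤ r) (C : ℕ) :
    ∃ (V : Type) (_ : Finite V) (G : SimpleGraph V) (d : ℕ) (χ : Sym2 V → Fin r),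
      (∀ v, (G.neighborSet v).ncard = d) ∧ Nat.card V ≤ 2 * d ∧
        ∀ P : Set (W ↪ V), IsMonoPacking H G χ P → C < (uncovered P).ncard := by
  classical
  have := Fintype.ofFinite W
  obtain ⟨p, hp1, hp⟩ := Nat.exists_infinite_primes (C + 1)
  have : Fact p.Prime := ⟨hp⟩
  have hpp : p ≤ p * p := Nat.le_mul_self p
  have hB : Nat.card (Fin (2 * (p * p) - p)) + p = 2 * (p * p) := by
    rw [Nat.card_eq_fintype_card, Fintype.card_fin]; omega
  have hA : Nat.card ((ZMod p × ZMod p) ⊕ (ZMod p × ZMod p)) = 2 * (p * p) := by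
    simp
    ring
  refine ⟨((ZMod p × ZMod p) ⊕ (ZMod p × ZMod p)) ⊕ Fin (2 * (p * p) - p), inferInstance,
    host p _, 2 * (p * p), colour _ _ r hr, host_ncard p _ hB, ?_, ?_⟩
  · rw [Nat.card_sum, hA]; omega
  · intro P hP
    have key := count P hP.2 (by
      intro f hf
      rcases copy_cases p r hr H f (hP.1 f hf) with h | h
      · exfalso
        obtain ⟨a, b, c, d, hac, hbd, h1, h2, h3, h4⟩ := hC4
        obtain ⟨xa, xb, ea, eb, f1⟩ := h a b h1
        obtain ⟨xb', xc, eb', ec, f2⟩ := h b c h2
        obtain ⟨xc', xd, ec', ed, f3⟩ := h c d h3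
        obtain ⟨xd', xa', ed', ea', f4⟩ := h d a h4
        obtain rfl : xb = xb' := Sum.inl_injective (eb.symm.trans eb')
        obtain rfl : xc = xc' := Sum.inl_injective (ec.symm.trans ec')
        obtain rfl : xd = xd' := Sum.inl_injective (ed.symm.trans ed')
        obtain rfl : xa = xa' := Sum.inl_injective (ea.symm.trans ea')
        refine inc_C4 p xa xb xc xd ?_ ?_ f1 f2 f3 f4
        · rintro rfl
          exact hac (f.injective (ea.trans ec.symm))
        · rintro rfl
          exact hbd (f.injective (eb.trans ed.symm))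
      · have := red_balanced H s hH hs (by
          simpa [Set.ncard_eq_toFinset_card'] using hbal) f h
        simpa [Set.ncard_eq_toFinset_card'] using this)
    rw [hA] at key
    omega

/-- **Q1 is false.**  Let `H` be any finite connected bipartite graph whose two classes have equal
size and which contains a 4-cycle (for instance `C₄`, or `K_{t,t}` with `t ≥ 2`), and let `r ≥ 2`.
For every `C` there is a finite `d`-regular graph with `d ≥ |V|/2` and an edge colouring with `r`
colours such that every monochromatic `H`-packing leaves more than `C` vertices uncovered.  In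
particular the statement of Q1 fails. -/
theorem result :
    (∀ (W : Type) (_ : Finite W) (H : SimpleGraph W) (s : W → Bool), H.Connected →
      (∀ a b, H.Adj a b → s a ≠ s b) → {a | s a = true}.ncard = {a | s a = false}.ncard →
      (∃ a b c d, a ≠ c ∧ b ≠ d ∧ H.Adj a b ∧ H.Adj b c ∧ H.Adj c d ∧ H.Adj d a) →
      ∀ r : ℕ, 2 ≤ r → ∀ C : ℕ,
        ∃ (V : Type) (_ : Finite V) (G : SimpleGraph V) (d : ℕ) (χ : Sym2 V → Fin r),
          (∀ v, (G.neighborSet v).ncard = d) ∧ Nat.card V ≤ 2 * d ∧
            ∀ P : Set (W ↪ V), IsMonoPacking H G χ P → C < (uncovered P).ncard) ∧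
    ¬ Question := by
  refine ⟨fun W _ H s hH hs hbal hC4 r hr C => main W H s hH hs hbal hC4 r hr C, ?_⟩
  intro hQ
  obtain ⟨C, hC, h⟩ := hQ (Fin 4) inferInstance (SimpleGraph.cycleGraph 4) (by
    refine ⟨SimpleGraph.Coloring.mk (fun a => if a.val % 2 = 0 then (0 : Fin 2) else 1) ?_⟩
    decide) 2 le_rfl (1 / 2) (by norm_num) (by norm_num)
  obtain ⟨V, hV, G, d, χ, h1, h2, h3⟩ := main (Fin 4) (SimpleGraph.cycleGraph 4)
    (fun a => decide (a.val % 2 = 0)) SimpleGraph.cycleGraph_connected (by decide)
    (by simp only [Set.ncard_eq_toFinset_card']; decide) ⟨0, 1, 2, 3, by decide⟩ 2 le_rfl ⌈C⌉₊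
  obtain ⟨P, hP, hC2⟩ := h V hV G d h1 (by
    have : (Nat.card V : ℝ) ≤ 2 * d := by exact_mod_cast h2
    linarith) χ
  have h4 := h3 P hP
  have h5 : C < ((uncovered P).ncard : ℝ) := lt_of_le_of_lt (Nat.le_ceil C) (by exact_mod_cast h4)
  linarith

end Pool.Agent.Results.MP_b9e70b_co.ColouredPackingFails
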